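import Pool.Agent.W586.SK.Stm2
import Pool.Agent.W280.SK.ZZ

/-!
# ZZ: the Gaussian regularisation of an exchangeable log-concave density
-/

set_option autoImplicit false

namespace Pool.Agent.W133.SX

open MeasureTheory Set
open scoped ENNReal InnerProductSpace
open Pool.Agent.H212R2.KLS (mu Bdd)
open Pool.Agent.H888R2.KT (LC zz)
open Pool.Agent.W586.SK (E)
open Pool.Agent.W586.SX (Sx)

variable {n : ℕ} {ρ : E n → ℝ}

/-- the isometry permuting the coordinates -/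
noncomputable def pm (σ : Equiv.Perm (Fin n)) : E n ≃ₗᵢ[ℝ] E n :=
  LinearIsometryEquiv.piLpCongrLeft 2 ℝ ℝ σ.symm

theorem pm_apply (σ : Equiv.Perm (Fin n)) (x : E n) (j : Fin n) : pm σ x j = x (σ j) := by
  unfold pm
  rw [LinearIsometryEquiv.piLpCongrLeft_apply]
  rfl

theorem zz_inv (hs : Sx ρ) (h : ℝ) (σ : Equiv.Perm (Fin n)) (x y : E n)
    (hxy : ∀ i, y i = x (σ i)) : zz h ρ y = zz h ρ x := by
  have h1 : y = pm σ x := by
    ext i
    rw [pm_apply]
    exact hxy i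
  have h2 : ∀ v, ρ (pm σ v) = ρ v := by
    intro v
    exact hs.inv σ v _ fun i => pm_apply σ v i
  rw [h1]
  exact Pool.Agent.H888R2.KT.N10x.zz_eq hs.meas h _ h2 x

theorem zzsx : Pool.Agent.W586.SX.S_ZZ := by
  intro n ρ hs hρ h hh
  have hc := Pool.Agent.W280.SK.zz_smooth hρ h hh
  exact ⟨⟨fun x => (Pool.Agent.H888R2.KT.N3x.zz_pos' hρ h x).le, hc.continuous.measurable,
    fun x y t ht0 ht1 => Pool.Agent.W280.SK.zz_logc hρ h hh x y t ht0 ht1,
    fun σ x y hxy => zz_inv hs h σ x y hxy⟩, hc⟩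

end Pool.Agent.W133.SX
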